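import Mathlib

/-!
# Matchings in integral domination graphs under top-`k` ballots: the conjectured bound fails

Voters `V`, candidates `C`; every voter has a strict linear order on the candidates and reports the
ordered list of the `k` highest ones.  `G_k(a)` is the graph of certified edges of the problem file.
The conjecture asks for a candidate `a` and a set `S` of at least `n k / m` voters such that
`G_k(a)` has a perfect matching on `S`.
-/

set_option autoImplicit false

namespace Pool.Agent.Results.MP_5491e1_lc.TopKMatchings

/-- A preference profile: each voter `i` has a strict linear order on the candidates;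
`P.pref i a b` means that `i` ranks `a` above `b`. -/
structure Profile (V C : Type) where
  pref : V → C → C → Prop
  strict : ∀ i, IsStrictTotalOrder C (pref i)

namespace Profile

variable {V C : Type} (P : Profile V C)

/-- `c = top(i)`: voter `i` ranks `c` above all other candidates. -/
def IsTop (i : V) (c : C) : Prop := ∀ b, b ≠ c → P.pref i c b

/-- The set `L_i` of the `k` candidates which voter `i` ranks highest: those with fewer than `k`
candidates ranked above them. -/
def Listed (k : ℕ) (i : V) : Set C := {a | {b | P.pref i b a}.ncard < k}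

/-- The edges of `G_k(a)`: `(i, j)` is an edge if `top(j) = a`, or `a ∈ L_i` and voter `i` does not
rank `top(j)` above `a`. -/
def Edge (k : ℕ) (a : C) (i j : V) : Prop :=
  ∃ t, P.IsTop j t ∧ (t = a ∨ (a ∈ P.Listed k i ∧ ¬ P.pref i t a))

/-- `G_k(a)` has a perfect matching on `S`: a bijection `M : S → S` such that `(i, M i)` is an edge
for all `i ∈ S`. -/
def HasMatching (k : ℕ) (a : C) (S : Finset V) : Prop :=
  ∃ M : Equiv.Perm {i // i ∈ S}, ∀ i : {i // i ∈ S}, P.Edge k a i (M i)

end Profile

/-- The statement of Q1, with a constant `c` in front of the bound: there are always a candidate `a`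
and a set `S` of at least `c · n k / m` voters such that `G_k(a)` has a perfect matching on `S`. -/
def LargeMatchings (c : ℝ) : Prop :=
  ∀ n m k : ℕ, 1 ≤ n → 1 ≤ m → 1 ≤ k → k ≤ m → ∀ P : Profile (Fin n) (Fin m),
    ∃ (a : Fin m) (S : Finset (Fin n)), c * (n * k / m) ≤ S.card ∧ P.HasMatching k a S

/-! ### The profile -/

/-- The score of candidate `c` for voter `i` (a low score is good).  Voter `i` ranks candidate `i`
first.  If `i ≤ p`, the candidates `2 p, 2 p + 1, …` come next and the other candidates `< 2 p` come
last; if `i > p`, the candidates `< 2 p` come next and the others last. -/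
def score (p d : ℕ) (i : Fin (2 * p)) (c : Fin (2 * p + d)) : ℕ :=
  if c.val = i.val then 0
  else if i.val < p + 1 ∧ c.val < 2 * p then 2 * p + d + 1 + c.val else 1 + c.val

lemma score_inj (p d : ℕ) (i : Fin (2 * p)) : Function.Injective (score p d i) := by
  intro a b h
  have ha := a.isLt
  have hb := b.isLt
  apply Fin.ext
  unfold score at h
  split_ifs at h <;> omega

/-- The profile. -/
def prof (p d : ℕ) : Profile (Fin (2 * p)) (Fin (2 * p + d)) where
  pref i a b := score p d i a < score p d i b
  strict i := (RelEmbedding.preimage ⟨score p d i, score_inj p d i⟩ (· < ·)).isStrictTotalOrder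

lemma top_val {p d : ℕ} {j : Fin (2 * p)} {t : Fin (2 * p + d)} (h : (prof p d).IsTop j t) :
    t.val = j.val := by
  by_contra hne
  have h1 := h ⟨j.val, by have := j.isLt; omega⟩ (fun h => hne (by rw [← h]))
  change score p d j t < score p d j ⟨j.val, _⟩ at h1
  have h2 : score p d j ⟨j.val, by have := j.isLt; omega⟩ = 0 := by
    unfold score
    rw [if_pos rfl]
  omega

/-- For `i ≤ p` the candidates `a < 2 p`, `a ≠ i`, are not in the list of voter `i`. -/
lemma not_listed {p d : ℕ} {i : Fin (2 * p)} {a : Fin (2 * p + d)} (hi : i.val < p + 1)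
    (ha : a.val < 2 * p) (hne : a.val ≠ i.val) : a ∉ (prof p d).Listed (d + 1) i := by
  intro h
  have h1 : {b | (prof p d).pref i b a}.ncard < d + 1 := h
  have h2 : (Set.range fun x : Fin (d + 1) => (if hx : x.val < d then
      (⟨2 * p + x.val, by omega⟩ : Fin (2 * p + d)) else ⟨i.val, by have := i.isLt; omega⟩)) ⊆
      {b | (prof p d).pref i b a} := by
    rintro _ ⟨x, rfl⟩
    change score p d i _ < score p d i a
    have hs : score p d i a = 2 * p + d + 1 + a.val := by
      unfold score
      rw [if_neg hne, if_pos ⟨hi, ha⟩]
    rw [hs]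
    dsimp only
    split_ifs with hx
    · unfold score
      have := i.isLt
      dsimp only
      split_ifs <;> omega
    · unfold score
      rw [if_pos rfl]
      omega
  have h3 : (Set.range fun x : Fin (d + 1) => (if hx : x.val < d then
      (⟨2 * p + x.val, by omega⟩ : Fin (2 * p + d)) else ⟨i.val, by have := i.isLt; omega⟩)).ncard
      = d + 1 := by
    rw [← Set.image_univ, Set.ncard_image_of_injective, Set.ncard_univ, Nat.card_eq_fintype_card,
      Fintype.card_fin]
    intro x y hxy
    have hi2 := i.isLt
    have hx2 := x.isLt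
    have hy2 := y.isLt
    apply Fin.ext
    dsimp only at hxy
    split_ifs at hxy with hx hy hy <;> simp only [Fin.mk.injEq] at hxy <;> omega
  have h4 := Set.ncard_le_ncard h2 (Set.toFinite _)
  omega

lemma card_A (p : ℕ) (hp : 1 ≤ p) :
    (Finset.univ.filter fun i : Fin (2 * p) => i.val < p + 1).card ≤ p + 1 := by
  have h : (Finset.univ.filter fun i : Fin (2 * p) => i.val < p + 1).card ≤
      (Finset.range (p + 1)).card := by
    apply Finset.card_le_card_of_injOn (fun i => i.val)
    · intro i hi
      simp only [Finset.coe_filter, Finset.mem_univ, true_and, Set.mem_setOf_eq] at hi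
      simpa using hi
    · intro i _ j _ hij
      exact Fin.ext hij
  simpa using h

lemma card_B (p : ℕ) (hp : 1 ≤ p) :
    (Finset.univ.filter fun i : Fin (2 * p) => p + 1 ≤ i.val).card ≤ p - 1 := by
  have h : (Finset.univ.filter fun i : Fin (2 * p) => p + 1 ≤ i.val).card ≤
      (Finset.Ico (p + 1) (2 * p)).card := by
    apply Finset.card_le_card_of_injOn (fun i => i.val)
    · intro i hi
      simp only [Finset.coe_filter, Finset.mem_univ, true_and, Set.mem_setOf_eq] at hi
      have := i.isLt
      simp only [Finset.coe_Ico, Set.mem_Ico]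
      omega
    · intro i _ j _ hij
      exact Fin.ext hij
  rw [Nat.card_Ico] at h
  omega

/-- In the profile every set with a perfect matching has at most `p + 1` voters. -/
lemma matching_le {p d : ℕ} (hp : 1 ≤ p) {a : Fin (2 * p + d)} {S : Finset (Fin (2 * p))}
    (h : (prof p d).HasMatching (d + 1) a S) : S.card ≤ p + 1 := by
  obtain ⟨M, hM⟩ := h
  by_cases ha : a.val < 2 * p
  · -- the voters `i ≤ p`, `i ≠ a`, are all matched with voter `a`
    have key : ∀ i : {i // i ∈ S}, i.val.val < p + 1 → i.val.val ≠ a.val →
        (M i).val.val = a.val := by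
      intro i hi hne
      obtain ⟨t, ht, h1⟩ := hM i
      have h2 := top_val ht
      rcases h1 with h1 | ⟨h1, -⟩
      · rw [← h2, h1]
      · exact absurd h1 (not_listed hi ha (Ne.symm hne))
    have h1 : (S.filter fun i => i.val < p + 1 ∧ i.val ≠ a.val).card ≤ 1 := by
      rw [Finset.card_le_one]
      intro i hi j hj
      rw [Finset.mem_filter] at hi hj
      have h2 := key ⟨i, hi.1⟩ hi.2.1 hi.2.2
      have h3 := key ⟨j, hj.1⟩ hj.2.1 hj.2.2
      have h4 : M ⟨i, hi.1⟩ = M ⟨j, hj.1⟩ := Subtype.ext (Fin.ext (h2.trans h3.symm))
      exact congrArg Subtype.val (M.injective h4)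
    have h2 : (S.filter fun i => i.val = a.val).card ≤ 1 := by
      rw [Finset.card_le_one]
      intro i hi j hj
      rw [Finset.mem_filter] at hi hj
      exact Fin.ext (hi.2.trans hj.2.symm)
    have h3 : S ⊆ (S.filter fun i => i.val < p + 1 ∧ i.val ≠ a.val) ∪
        ((S.filter fun i => i.val = a.val) ∪
          (Finset.univ.filter fun i : Fin (2 * p) => p + 1 ≤ i.val)) := by
      intro i hi
      simp only [Finset.mem_union, Finset.mem_filter, Finset.mem_univ, true_and, hi]
      omega
    have h4 := Finset.card_le_card h3
    have h5 := Finset.card_union_le (S.filter fun i => i.val < p + 1 ∧ i.val ≠ a.val)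
      ((S.filter fun i => i.val = a.val) ∪
          (Finset.univ.filter fun i : Fin (2 * p) => p + 1 ≤ i.val))
    have h6 := Finset.card_union_le (S.filter fun i => i.val = a.val)
          (Finset.univ.filter fun i : Fin (2 * p) => p + 1 ≤ i.val)
    have h7 := card_B p hp
    omega
  · -- the voters `i > p` rank all the first choices above `a`
    have key : ∀ i ∈ S, i.val < p + 1 := by
      intro i hi
      by_contra hlt
      obtain ⟨t, ht, h1⟩ := hM ⟨i, hi⟩
      have h2 := top_val ht
      have h3 := (M ⟨i, hi⟩).val.isLt
      have h4 := i.isLt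
      rcases h1 with h1 | ⟨-, h1⟩
      · rw [h1] at h2
        omega
      · apply h1
        change score p d i t < score p d i a
        unfold score
        split_ifs <;> omega
    have h1 : S ⊆ Finset.univ.filter fun i : Fin (2 * p) => i.val < p + 1 := by
      intro i hi
      simp only [Finset.mem_filter, Finset.mem_univ, true_and]
      exact key i hi
    exact (Finset.card_le_card h1).trans (card_A p hp)

/-- **The conjectured matchings do not exist.**
(1) For all `p ≥ 1` and `d` there is a profile with `n = 2 p` voters and `m = 2 p + d` candidates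
such that for `k = d + 1`, for every candidate `a`, every set `S` of voters such that `G_k(a)` has a
perfect matching on `S` has at most `n / 2 + 1` elements (while `n k / m` tends to `n` as `d → ∞`).
(2) So the answer to Q1 is no, and it remains no if the bound `n k / m` is replaced by `c · n k / m`
for any constant `c > 1 / 2`. -/
theorem result :
    (∀ p d : ℕ, 1 ≤ p → ∃ P : Profile (Fin (2 * p)) (Fin (2 * p + d)),
      ∀ (a : Fin (2 * p + d)) (S : Finset (Fin (2 * p))), P.HasMatching (d + 1) a S →
        S.card ≤ p + 1) ∧
    ¬ LargeMatchings 1 ∧ ∀ c : ℝ, 1 / 2 < c → ¬ LargeMatchings c := by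
  have main : ∀ c : ℝ, 1 / 2 < c → ¬ LargeMatchings c := by
    intro c hc h
    obtain ⟨p, hp⟩ := exists_nat_gt (1 / (2 * c - 1))
    have h1 : 0 < 2 * c - 1 := by linarith
    have hp0 : (0 : ℝ) < p := lt_trans (by positivity) hp
    have hp1 : 1 ≤ p := by exact_mod_cast hp0
    have h2 : 0 < 2 * p * c - p - 1 := by
      rw [div_lt_iff₀ h1] at hp
      linarith
    obtain ⟨d, hd⟩ := exists_nat_gt (2 * p * (p + 1) / (2 * p * c - p - 1))
    rw [div_lt_iff₀ h2] at hd
    obtain ⟨a, S, h3, h4⟩ := h (2 * p) (2 * p + d) (d + 1) (by omega) (by omega) (by omega)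
      (by omega) (prof p d)
    have h5 : (S.card : ℝ) ≤ p + 1 := by exact_mod_cast matching_le hp1 h4
    have h6 : c * (((2 * p : ℕ) : ℝ) * ((d + 1 : ℕ) : ℝ) / ((2 * p + d : ℕ) : ℝ)) ≤ p + 1 :=
      h3.trans h5
    push_cast at h6
    have hd0 : (0 : ℝ) ≤ d := Nat.cast_nonneg d
    have h7 : (0 : ℝ) < 2 * p + d := by linarith
    rw [← mul_div_assoc, div_le_iff₀ h7] at h6
    have h8 : 0 < c * p := mul_pos (by linarith) hp0
    nlinarith
  exact ⟨fun p d hp => ⟨prof p d, fun a S h => matching_le hp h⟩, main 1 (by norm_num), main⟩

end Pool.Agent.Results.MP_5491e1_lc.TopKMatchings
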